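import Pool.Agent.X145.KW.Main

set_option autoImplicit false
open MeasureTheory Filter Topology

/-!
# MP_46e774_pr: k-width of sequences of random intervals

`law n` is the law of `n` independent pairs of independent uniform variables on `(0,1)`; the pair
`w i` encodes the random interval `[min, max]`. `seqRel w i j` : `i < j` and interval `i` lies
wholly to the left of interval `j`. `kWidth r k` is the least number of classes in a partition of
the index set into `k`-ary chains of the relation `r` (`Pool/Agent/X145/KW/Comb.lean`).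

For every `k ≥ 1`: `E[k-wd(R_n)] / n → 1/(k+1) > 0`, and `E[k-wd(R_n)] ≥ n/(k+1)` for every `n`.
-/

namespace Pool.Agent.Results.MP_46e774_pr.SequenceLimit

open Pool.Agent.X145.KW

theorem result (k : ℕ) (_hk : 1 ≤ k) :
    Tendsto (fun n : ℕ => (∫ w, (kWidth (seqRel w) k : ℝ) ∂(law n)) / n) atTop
      (𝓝 (1 / ((k : ℝ) + 1))) ∧
    0 < 1 / ((k : ℝ) + 1) ∧
    ∀ n : ℕ, (n : ℝ) / (k + 1) ≤ ∫ w, (kWidth (seqRel w) k : ℝ) ∂(law n) :=
  ⟨seq_limit k, by positivity, fun n => (lower k n).trans (mean_le k n)⟩

end Pool.Agent.Results.MP_46e774_pr.SequenceLimit
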